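import Pool.Agent.Helper7.KT.St

/-!
# Project KT: module CDR
-/

set_option autoImplicit false

namespace Pool.Agent.Helper11.KT

open Finset SimpleGraph Filter Topology
open EX Pool.Agent.Helper7.KT

open scoped Classical

/-- an edge which contains `u` and `v` -/
private theorem exists_third {V : Type} (E : Finset V) (u v : V) (huv : u ≠ v) (hE : E.card = 3)
    (hu : u ∈ E) (hv : v ∈ E) : ∃ w, u ≠ w ∧ v ≠ w ∧ ({u, v, w} : Finset V) = E := by
  have h1 : (E.erase u).card = 2 := by
    rw [card_erase_of_mem hu, hE]
  have hv' : v ∈ E.erase u := mem_erase.2 ⟨huv.symm, hv⟩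
  have h2 : ((E.erase u).erase v).card = 1 := by
    rw [card_erase_of_mem hv', h1]
  obtain ⟨w, hw⟩ := card_eq_one.1 h2
  have hw' : w ∈ (E.erase u).erase v := by
    rw [hw]
    exact mem_singleton_self w
  rw [mem_erase, mem_erase] at hw'
  refine ⟨w, hw'.2.1.symm, hw'.1.symm, ?_⟩
  rw [← hw, insert_erase hv', insert_erase hu]

theorem hCDR : StCDR := by
  intro V _ H hH N u v huv
  constructor
  · rintro ⟨T, hT, hN, hc, -⟩
    refine hN.trans ?_
    have hsub : T ⊆ (univ.filter fun w => T3 H u v w).image (fun w => ({u, v, w} : Finset V)) := by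
      intro E hE
      obtain ⟨w, h1, h2, h3⟩ := exists_third E u v huv (hH E (hT hE)) (hc E hE).1 (hc E hE).2
      rw [mem_image]
      refine ⟨w, ?_, h3⟩
      rw [mem_filter]
      refine ⟨mem_univ _, huv, h1, h2, ?_⟩
      rw [h3]
      exact hT hE
    exact (card_le_card hsub).trans card_image_le
  · intro hN
    have hinj : Set.InjOn (fun w => ({u, v, w} : Finset V))
        ((univ.filter fun w => T3 H u v w : Finset V) : Set V) := by
      intro w hw w' hw' h
      rw [mem_coe, mem_filter] at hw hw'
      have h1 : w ∈ ({u, v, w'} : Finset V) := by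
        have h2 : w ∈ ({u, v, w} : Finset V) := by simp
        have h3 : ({u, v, w} : Finset V) = {u, v, w'} := h
        rwa [h3] at h2
      simp only [mem_insert, mem_singleton] at h1
      rcases h1 with h1 | h1 | h1
      · exact absurd h1.symm hw.2.2.1
      · exact absurd h1.symm hw.2.2.2.1
      · exact h1
    refine ⟨(univ.filter fun w => T3 H u v w).image (fun w => ({u, v, w} : Finset V)), ?_, ?_, ?_, ?_⟩
    · intro E hE
      obtain ⟨w, hw, rfl⟩ := mem_image.1 hE
      exact (mem_filter.1 hw).2.2.2.2
    · rw [card_image_of_injOn hinj]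
      exact hN
    · intro E hE
      obtain ⟨w, hw, rfl⟩ := mem_image.1 hE
      exact ⟨by simp, by simp⟩
    · intro E hE E' hE' hne
      obtain ⟨w, hw, rfl⟩ := mem_image.1 hE
      obtain ⟨w', hw', rfl⟩ := mem_image.1 hE'
      have hww : w ≠ w' := by
        rintro rfl
        exact hne rfl
      have h1 := (mem_filter.1 hw).2
      have h2 := (mem_filter.1 hw').2
      ext x
      simp only [mem_inter, mem_insert, mem_singleton]
      constructor
      · rintro ⟨a | a | a, b | b | b⟩
        · exact Or.inl a
        · exact Or.inl a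
        · exact Or.inl a
        · exact Or.inl b
        · exact Or.inr a
        · exact Or.inr a
        · exact Or.inl b
        · exact Or.inr b
        · exact absurd (a.symm.trans b) hww
      · rintro (a | a)
        · exact ⟨Or.inl a, Or.inl a⟩
        · exact ⟨Or.inr (Or.inl a), Or.inr (Or.inl a)⟩

end Pool.Agent.Helper11.KT
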